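import Pool.Agent.H124R2.Vis.Exit
import Pool.Agent.H247R2.Warren

set_option autoImplicit false

/-!
# The number of visibility graphs of simple polygons is at most `2 ^ O(n log n)`
-/

namespace Pool.Agent.X33.VG

open Vis124 MvPolynomial

/-- triples of vertices and a choice between orientation and scalar product -/
abbrev J (n : ℕ) : Type := (Fin n × Fin n × Fin n) × Bool

/-- the sign data of a sequence of points -/
noncomputable def sg {n : ℕ} (v : Fin n → ℝ × ℝ) (j : J n) : SignType :=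
  if j.2 then SignType.sign (ori (v j.1.1) (v j.1.2.1) (v j.1.2.2))
  else SignType.sign (dotp (v j.1.1) (v j.1.2.1) (v j.1.2.2))

theorem pos_congr {x y : ℝ} (σ : ℝ) (h : SignType.sign x = SignType.sign y) :
    0 < σ * x ↔ 0 < σ * y := by
  rw [← sign_eq_one_iff, ← sign_eq_one_iff, sign_mul, sign_mul, h]

theorem neg_congr {x y : ℝ} (σ : ℝ) (h : SignType.sign x = SignType.sign y) :
    σ * x < 0 ↔ σ * y < 0 := by
  rw [← sign_eq_neg_one_iff, ← sign_eq_neg_one_iff, sign_mul, sign_mul, h]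

theorem zero_congr {x y : ℝ} (h : SignType.sign x = SignType.sign y) :
    x = 0 ↔ y = 0 := by
  refine sign_eq_zero_iff.symm.trans ?_
  rw [h]
  exact sign_eq_zero_iff

theorem nonpos_congr {x y : ℝ} (h : SignType.sign x = SignType.sign y) :
    x ≤ 0 ↔ y ≤ 0 := by
  rw [← not_lt, ← not_lt, ← sign_eq_one_iff, ← sign_eq_one_iff, h]

section

variable {n : ℕ} {v v' : Fin n → ℝ × ℝ} (hs : sg v = sg v')

include hs

theorem ori_congr (i j k : Fin n) :
    SignType.sign (ori (v i) (v j) (v k)) = SignType.sign (ori (v' i) (v' j) (v' k)) := by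
  have := congrFun hs ((i, j, k), true)
  simpa [sg] using this

theorem dotp_congr (i j k : Fin n) :
    SignType.sign (dotp (v i) (v j) (v k)) = SignType.sign (dotp (v' i) (v' j) (v' k)) := by
  have := congrFun hs ((i, j, k), false)
  simpa [sg] using this

theorem sec_congr (σ : ℝ) (j k : Fin n) :
    v j - v k ∈ Sec σ (wd v k) (ud v k) ↔ v' j - v' k ∈ Sec σ (wd v' k) (ud v' k) := by
  have h1 := ori_congr hs k (sc k) (pd k)
  have h2 := ori_congr hs k (sc k) j
  have h3 := ori_congr hs k j (pd k)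
  have e1 := pos_congr σ h1
  have e2 := pos_congr σ h2
  have e3 := pos_congr σ h3
  have e4 : σ * ori (v k) (v (sc k)) (v (pd k)) ≤ 0 ↔
      σ * ori (v' k) (v' (sc k)) (v' (pd k)) ≤ 0 := by
    rw [← not_lt, ← not_lt, e1]
  unfold ori at e1 e2 e3 e4
  unfold Sec wd ud
  simp only [Set.mem_ofPred_eq]
  rw [e1, e2, e3, e4]

theorem vexit_congr (σ : ℝ) (i j k : Fin n) : VExit σ v i j k ↔ VExit σ v' i j k := by
  unfold VExit
  rw [zero_congr (ori_congr hs i j k), nonpos_congr (dotp_congr hs k i j), sec_congr hs (-σ) j k]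

theorem eexit_congr (σ : ℝ) (i j l : Fin n) : EExit σ v i j l ↔ EExit σ v' i j l := by
  unfold EExit
  have h3 : ori (v i) (v j) (v l) * ori (v i) (v j) (v (sc l)) < 0 ↔
      ori (v' i) (v' j) (v' l) * ori (v' i) (v' j) (v' (sc l)) < 0 := by
    rw [← sign_eq_neg_one_iff, ← sign_eq_neg_one_iff, sign_mul, sign_mul,
      ori_congr hs i j l, ori_congr hs i j (sc l)]
  rw [pos_congr σ (ori_congr hs l (sc l) i), neg_congr σ (ori_congr hs l (sc l) j), h3]

/-- The visibility graph is determined by the side of the interior and the sign data. -/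
theorem visGraph_congr {P P' : Set (ℝ × ℝ)} (h : IsSimplePolygon v P) (h' : IsSimplePolygon v' P')
    {σ : ℝ} (hσ : σ = 1 ∨ σ = -1) (h1 : ∀ k, Ev v (interior P) σ k) (h2 : ∀ k, Ev v Pᶜ (-σ) k)
    (h1' : ∀ k, Ev v' (interior P') σ k) (h2' : ∀ k, Ev v' P'ᶜ (-σ) k) :
    visGraph v P = visGraph v' P' := by
  ext i j
  unfold visGraph
  simp only
  constructor
  · rintro ⟨hij, hv⟩
    refine ⟨hij, ?_⟩
    by_contra hn
    have h3 := exit_of_not_visible h' hσ h1' h2' hij hn
    refine not_visible_of_exit h hσ h2 hij ?_ hv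
    rcases h3 with ⟨k, hk⟩ | ⟨l, hl⟩
    · exact Or.inl ⟨k, (vexit_congr hs σ i j k).2 hk⟩
    · exact Or.inr ⟨l, (eexit_congr hs σ i j l).2 hl⟩
  · rintro ⟨hij, hv⟩
    refine ⟨hij, ?_⟩
    by_contra hn
    have h3 := exit_of_not_visible h hσ h1 h2 hij hn
    refine not_visible_of_exit h' hσ h2' hij ?_ hv
    rcases h3 with ⟨k, hk⟩ | ⟨l, hl⟩
    · exact Or.inl ⟨k, (vexit_congr hs σ i j k).1 hk⟩
    · exact Or.inr ⟨l, (eexit_congr hs σ i j l).1 hl⟩

end

/-- the coordinates as variables -/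
abbrev V (n : ℕ) : Type := Fin n × Bool

/-- the polynomials of the sign data -/
noncomputable def pol (n : ℕ) (j : J n) : MvPolynomial (V n) ℝ :=
  if j.2 then
    (X (j.1.2.1, false) - X (j.1.1, false)) * (X (j.1.2.2, true) - X (j.1.1, true)) -
      (X (j.1.2.1, true) - X (j.1.1, true)) * (X (j.1.2.2, false) - X (j.1.1, false))
  else
    (X (j.1.2.1, false) - X (j.1.1, false)) * (X (j.1.2.2, false) - X (j.1.1, false)) +
      (X (j.1.2.1, true) - X (j.1.1, true)) * (X (j.1.2.2, true) - X (j.1.1, true))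

theorem deg_X_sub {n : ℕ} (a b : V n) :
    (X a - X b : MvPolynomial (V n) ℝ).totalDegree ≤ 1 := by
  refine (totalDegree_sub _ _).trans ?_
  simp

theorem deg_mul {n : ℕ} (a b c d : V n) :
    ((X a - X b) * (X c - X d) : MvPolynomial (V n) ℝ).totalDegree ≤ 2 := by
  refine (totalDegree_mul _ _).trans ?_
  have := deg_X_sub a b
  have := deg_X_sub c d
  omega

theorem pol_deg (n : ℕ) (j : J n) : (pol n j).totalDegree ≤ 2 := by
  unfold pol
  split_ifs
  · exact (totalDegree_sub _ _).trans (max_le (deg_mul _ _ _ _) (deg_mul _ _ _ _))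
  · exact (totalDegree_add _ _).trans (max_le (deg_mul _ _ _ _) (deg_mul _ _ _ _))

theorem sg_eq {n : ℕ} (v : Fin n → ℝ × ℝ) (j : J n) :
    SignType.sign (eval (fun a : V n => if a.2 then (v a.1).2 else (v a.1).1) (pol n j)) =
      sg v j := by
  unfold pol sg
  split_ifs
  · simp [ori, cr]
  · simp [dotp]

/-- the sign data of all sequences of `n` points -/
noncomputable def SS (n : ℕ) : Finset (J n → SignType) := by
  classical
  exact Finset.univ.filter fun s => ∃ v : Fin n → ℝ × ℝ, sg v = s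

theorem card_SS (n : ℕ) : (SS n).card ≤ (16 * n ^ 3 + 1) ^ (2 * n) := by
  classical
  have h := H247R2.Warren.sign_count (pol n) 2 (pol_deg n) (SS n) (by
    intro σ hσ
    rw [SS, Finset.mem_filter] at hσ
    obtain ⟨-, v, rfl⟩ := hσ
    exact ⟨_, sg_eq v⟩)
  refine h.trans (le_of_eq ?_)
  simp only [Fintype.card_prod, Fintype.card_fin, Fintype.card_bool]
  have e : 4 * (n * (n * n) * 2 * 2) + 1 = 16 * n ^ 3 + 1 := by ring
  rw [e, mul_comm n 2]

/-- **Upper bound.** -/
theorem N_le (n : ℕ) : N n ≤ 2 * (16 * n ^ 3 + 1) ^ (2 * n) := by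
  classical
  have hch : ∀ q : visClasses n, ∃ (b : Bool) (v : Fin n → ℝ × ℝ) (P : Set (ℝ × ℝ)),
      IsSimplePolygon v P ∧ (q : Quotient (isoSetoid n)) = Quotient.mk (isoSetoid n) (visGraph v P) ∧
      (∀ k, Ev v (interior P) (if b then 1 else -1) k) ∧
      (∀ k, Ev v Pᶜ (-(if b then 1 else -1)) k) := by
    rintro ⟨q, v, P, h, hq⟩
    obtain ⟨σ, hσ, h1, h2⟩ := oriented h
    rcases hσ with rfl | rfl
    · exact ⟨true, v, P, h, hq, by simpa using h1, by simpa using h2⟩
    · exact ⟨false, v, P, h, hq, by simpa using h1, by simpa using h2⟩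
  choose b v P h hq h1 h2 using hch
  have hmem : ∀ q, sg (v q) ∈ SS n := by
    intro q
    rw [SS, Finset.mem_filter]
    exact ⟨Finset.mem_univ _, v q, rfl⟩
  let f : visClasses n → Bool × SS n := fun q => (b q, ⟨sg (v q), hmem q⟩)
  have hf : Function.Injective f := by
    intro q q' hqq
    have e1 : b q = b q' := congrArg Prod.fst hqq
    have e2 : sg (v q) = sg (v q') := congrArg (fun x => (x.2 : J n → SignType)) hqq
    have h1' := h1 q'
    have h2' := h2 q'
    rw [← e1] at h1' h2'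
    have := visGraph_congr e2 (h q) (h q') (σ := if b q then 1 else -1)
      (by split_ifs <;> simp) (h1 q) (h2 q) h1' h2'
    apply Subtype.ext
    rw [hq q, hq q', this]
  have h3 := Nat.card_le_card_of_injective f hf
  rw [Nat.card_coe_set_eq] at h3
  refine h3.trans ?_
  rw [Nat.card_prod, Nat.card_eq_fintype_card, Nat.card_eq_fintype_card, Fintype.card_bool,
    Fintype.card_coe]
  exact Nat.mul_le_mul_left 2 (card_SS n)

end Pool.Agent.X33.VG
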