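import Pool.Agent.X33.VG.Poly
import Pool.Agent.X33.VG.Upper

set_option autoImplicit false

/-!
# The number of isomorphism classes of visibility graphs is `2 ^ Θ(n log n)`
-/

namespace Pool.Agent.X33.VG

open Vis124 Pool.Agent.TH695.BC

/-- The isomorphism classes of graphs that arise as visibility graph of a simple polygon with `n`
vertices none of whose angles is straight. -/
def visClassesStrict (n : ℕ) : Set (Quotient (isoSetoid n)) :=
  {q | ∃ (v : Fin n → ℝ × ℝ) (P : Set (ℝ × ℝ)), IsSimplePolygon v P ∧ NoStraight v ∧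
    q = Quotient.mk (isoSetoid n) (visGraph v P)}

/-- The number of isomorphism classes of visibility graphs of simple polygons with `n` vertices
none of whose angles is straight. -/
noncomputable def NStrict (n : ℕ) : ℕ := (visClassesStrict n).ncard

instance (n : ℕ) : Finite (Quotient (isoSetoid n)) := by
  classical
  infer_instance

theorem NStrict_le (n : ℕ) : NStrict n ≤ N n := by
  apply Set.ncard_le_ncard _ (Set.toFinite _)
  rintro q ⟨v, P, h, -, hq⟩
  exact ⟨v, P, h, hq⟩

section

variable {m B n L : ℕ} (hL : 12 * m + 8 * B + 2 ≤ L) (hn : n = 2 * L + 2 ∨ n = 2 * L + 1)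

include hL hn in
/-- **Counting.** -/
theorem count : B ^ (2 * m) ≤ NStrict n * n ^ (m + 2 * B) := by
  classical
  have hn0 : 0 < n := by omega
  -- the classes
  let G : (Fin m → Fin B × Fin B) → SimpleGraph (Fin n) := fun d => visGraph (vv n L d) (PP n L d)
  have hG : ∀ d, Quotient.mk (isoSetoid n) (G d) ∈ visClassesStrict n := by
    intro d
    exact ⟨vv n L d, PP n L d, (heights d n L hL hn).isSimplePolygon, noStraight d n L hL hn, rfl⟩
  have hψ : ∀ d, Nonempty (G d ≃g (Quotient.mk (isoSetoid n) (G d)).out) := by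
    intro d
    have := Quotient.mk_out (s := isoSetoid n) (G d)
    obtain ⟨e⟩ := this
    exact ⟨e.symm⟩
  obtain ⟨ψ⟩ : Nonempty (∀ d, G d ≃g (Quotient.mk (isoSetoid n) (G d)).out) :=
    ⟨fun d => (hψ d).some⟩
  let T := Fin m ⊕ (Fin B ⊕ Fin B)
  let vert : T → Fin n := Sum.elim (fun i => hi n hn0 (4 * m + 4 * B + 4 * (i : ℕ) + 1))
    (Sum.elim (fun j => lo n hn0 (2 * (j : ℕ))) (fun j => lo n hn0 (12 * m + 6 * B + 2 * (j : ℕ))))
  let f : (Fin m → Fin B × Fin B) → visClassesStrict n × (T → Fin n) := fun d =>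
    (⟨Quotient.mk (isoSetoid n) (G d), hG d⟩, fun t => ψ d (vert t))
  have hf : Function.Injective f := by
    intro d d' hdd
    have e1 : Quotient.mk (isoSetoid n) (G d) = Quotient.mk (isoSetoid n) (G d') :=
      congrArg (fun x => (x.1 : Quotient (isoSetoid n))) hdd
    have e2 : ∀ t, ψ d (vert t) = ψ d' (vert t) := fun t => congrFun (congrArg Prod.snd hdd) t
    have key : ∀ s t, (G d).Adj (vert s) (vert t) ↔ (G d').Adj (vert s) (vert t) := by
      intro s t
      rw [← (ψ d).map_adj_iff, ← (ψ d').map_adj_iff, e2 s, e2 t, e1]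
    funext i
    have hav : av d i = av d' i := by
      have hk : ∀ j : ℕ, j < B → (av d i ≤ j ↔ av d' i ≤ j) := by
        intro j hj
        have := key (Sum.inl i) (Sum.inr (Sum.inl ⟨j, hj⟩))
        simp only [vert, Sum.elim_inl, Sum.elim_inr, G] at this
        rwa [adj_left d hL hn hn0 i j i.2 hj, adj_left d' hL hn hn0 i j i.2 hj] at this
      have h1 := av_lt d i.2
      have h2 := av_lt d' i.2
      apply le_antisymm
      · exact (hk _ (by omega)).2 le_rfl
      · exact (hk _ (by omega)).1 le_rfl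
    have hbv : bv d i = bv d' i := by
      have hk : ∀ j : ℕ, j < B → (j ≤ bv d i ↔ j ≤ bv d' i) := by
        intro j hj
        have := key (Sum.inl i) (Sum.inr (Sum.inr ⟨j, hj⟩))
        simp only [vert, Sum.elim_inl, Sum.elim_inr, G] at this
        rwa [adj_right d hL hn hn0 i j i.2 hj, adj_right d' hL hn hn0 i j i.2 hj] at this
      have h1 := bv_lt d i.2
      have h2 := bv_lt d' i.2
      apply le_antisymm
      · exact (hk _ (by omega)).1 le_rfl
      · exact (hk _ (by omega)).2 le_rfl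
    unfold av at hav
    unfold bv at hbv
    rw [dif_pos i.2, dif_pos i.2] at hav hbv
    exact Prod.ext (Fin.ext hav) (Fin.ext hbv)
  have h3 := Nat.card_le_card_of_injective f hf
  have c1 : Nat.card (Fin m → Fin B × Fin B) = B ^ (2 * m) := by
    rw [Nat.card_eq_fintype_card]
    simp only [Fintype.card_pi, Fintype.card_prod, Fintype.card_fin, Finset.prod_const,
      Finset.card_univ]
    rw [← pow_two, ← pow_mul]
  have c2 : Nat.card (visClassesStrict n × (T → Fin n)) = NStrict n * n ^ (m + 2 * B) := by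
    rw [Nat.card_prod, Nat.card_coe_set_eq]
    congr 1
    rw [Nat.card_eq_fintype_card]
    simp only [Fintype.card_pi, Fintype.card_fin, Finset.prod_const, Finset.card_univ]
    congr 1
    simp only [T, Fintype.card_sum, Fintype.card_fin]
    ring
  rwa [c1, c2] at h3

end

/-- **Lower bound.** -/
theorem lower {n : ℕ} (hn : 2 ^ 64 ≤ n) : n / 256 * Real.logb 2 n ≤ Real.logb 2 (NStrict n) := by
  have h128 : 128 ≤ n := le_trans (by norm_num) hn
  set t : ℕ := n / 128 with ht
  set L : ℕ := (n - 1) / 2 with hL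
  have ht1 : 1 ≤ t := by omega
  have hnL : n = 2 * L + 2 ∨ n = 2 * L + 1 := by omega
  have h2 : 2 ^ 64 ≤ n := hn
  have hLt : 12 * (4 * t) + 8 * t + 2 ≤ L := by
    have : 2 ^ 64 = 18446744073709551616 := by norm_num
    omega
  have h3 := count hLt hnL
  have hnR : (0 : ℝ) < n := by
    have : 0 < n := by omega
    exact_mod_cast this
  have htR : (0 : ℝ) < t := by exact_mod_cast ht1
  have hNpos : 0 < NStrict n := by
    by_contra h
    have h0 : NStrict n = 0 := by omega
    rw [h0, zero_mul] at h3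
    have : 0 < t ^ (2 * (4 * t)) := pow_pos ht1 _
    omega
  have hNR : (0 : ℝ) < NStrict n := by exact_mod_cast hNpos
  have h4 : (t : ℝ) ^ (2 * (4 * t)) ≤ NStrict n * (n : ℝ) ^ (4 * t + 2 * t) := by exact_mod_cast h3
  have h5 : Real.logb 2 ((t : ℝ) ^ (2 * (4 * t))) ≤
      Real.logb 2 (NStrict n * (n : ℝ) ^ (4 * t + 2 * t)) :=
    Real.logb_le_logb_of_le (by norm_num) (by positivity) h4
  rw [Real.logb_mul hNR.ne' (by positivity), Real.logb_pow, Real.logb_pow] at h5
  push_cast at h5
  -- the logarithm of `t`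
  have h6 : (n : ℝ) / 256 ≤ t := by
    have : n ≤ 256 * t := by omega
    have : (n : ℝ) ≤ 256 * t := by exact_mod_cast this
    linarith
  have h7 : Real.logb 2 n - 8 ≤ Real.logb 2 t := by
    have h8 : Real.logb 2 ((n : ℝ) / 256) ≤ Real.logb 2 t :=
      Real.logb_le_logb_of_le (by norm_num) (by positivity) h6
    rw [Real.logb_div hnR.ne' (by norm_num)] at h8
    have h9 : Real.logb 2 (256 : ℝ) = 8 := by
      rw [show (256 : ℝ) = 2 ^ (8 : ℕ) by norm_num, Real.logb_pow, Real.logb_self_eq_one (by norm_num)]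
      norm_num
    rwa [h9] at h8
  have h10 : (64 : ℝ) ≤ Real.logb 2 n := by
    have h11 : Real.logb 2 ((2 : ℝ) ^ (64 : ℕ)) ≤ Real.logb 2 n :=
      Real.logb_le_logb_of_le (by norm_num) (by positivity) (by exact_mod_cast hn)
    rw [Real.logb_pow, Real.logb_self_eq_one (by norm_num)] at h11
    norm_num at h11
    exact h11
  set ℓ := Real.logb 2 n with hℓ
  have h12 : (n : ℝ) / 256 * ℓ ≤ t * ℓ := mul_le_mul_of_nonneg_right h6 (by linarith)
  have h13 : 8 * (t : ℝ) * (ℓ - 8) ≤ 8 * (t : ℝ) * Real.logb 2 t :=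
    mul_le_mul_of_nonneg_left h7 (by positivity)
  nlinarith

/-- **Upper bound.** -/
theorem upper {n : ℕ} (hn : 3 ≤ n) (hpos : 0 < N n) :
    Real.logb 2 (N n) ≤ 17 * (n * Real.logb 2 n) := by
  have h1 := N_le n
  have hn1 : (3 : ℝ) ≤ n := by exact_mod_cast hn
  have h2 : 2 * (16 * n ^ 3 + 1) ^ (2 * n) ≤ 2 * (32 * n ^ 3) ^ (2 * n) := by
    apply Nat.mul_le_mul_left
    apply Nat.pow_le_pow_left
    have : 1 ≤ n ^ 3 := Nat.one_le_pow _ _ (by omega)
    omega
  have h3 : (N n : ℝ) ≤ 2 * (32 * (n : ℝ) ^ 3) ^ (2 * n) := by exact_mod_cast h1.trans h2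
  have h4 : Real.logb 2 (N n) ≤ Real.logb 2 (2 * (32 * (n : ℝ) ^ 3) ^ (2 * n)) :=
    Real.logb_le_logb_of_le (by norm_num) (by exact_mod_cast hpos) h3
  refine h4.trans ?_
  rw [Real.logb_mul (by norm_num) (by positivity), Real.logb_pow,
    Real.logb_mul (by norm_num) (by positivity), Real.logb_pow,
    Real.logb_self_eq_one (by norm_num),
    show (32 : ℝ) = 2 ^ (5 : ℕ) by norm_num, Real.logb_pow, Real.logb_self_eq_one (by norm_num)]
  push_cast
  have h5 : (1 : ℝ) ≤ Real.logb 2 n := by
    rw [Real.le_logb_iff_rpow_le (by norm_num) (by linarith)]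
    norm_num
    linarith
  nlinarith

/-- `log₂ N(n)` is of order `n log₂ n`. -/
theorem theta : ∃ c C : ℝ, 0 < c ∧ 0 < C ∧ ∃ n₀ : ℕ, ∀ n : ℕ, n₀ ≤ n →
    c * (n * Real.logb 2 n) ≤ Real.logb 2 (NStrict n) ∧ NStrict n ≤ N n ∧
      Real.logb 2 (N n) ≤ C * (n * Real.logb 2 n) := by
  refine ⟨1 / 256, 17, by norm_num, by norm_num, 2 ^ 64, ?_⟩
  intro n hn
  have h1 := lower hn
  have h3 : 3 ≤ n := le_trans (by norm_num) hn
  have hpos : 0 < NStrict n := by
    by_contra h
    have h0 : NStrict n = 0 := by omega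
    rw [h0, Nat.cast_zero, Real.logb_zero] at h1
    have h4 : (3 : ℝ) ≤ n := by exact_mod_cast h3
    have h5 : 0 < Real.logb 2 (n : ℝ) := Real.logb_pos (by norm_num) (by linarith)
    have : 0 < (n : ℝ) / 256 * Real.logb 2 n := by positivity
    linarith
  have h2 := NStrict_le n
  refine ⟨by linarith, h2, upper h3 (by omega)⟩

end Pool.Agent.X33.VG
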