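import Pool.Agent.TH695.BC.Straight

set_option autoImplicit false

/-!
# Monotone polygons with pockets

The upper chain has `m` triangular pockets over a wide hall. The apex of the `i`-th pocket sees
exactly the targets `2 j`, `j ≥ a i`, of the left part of the lower chain, and exactly the targets
`12 m + 6 B + 2 j`, `j ≤ b i`, of the right part, where `a i, b i < B` are arbitrary.
-/

namespace Pool.Agent.X33.VG

open Vis124 Pool.Agent.TH695.BC

section

variable {m B : ℕ} (d : Fin m → Fin B × Fin B)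

/-- the left threshold of the pocket `i` -/
def av (i : ℕ) : ℕ := if h : i < m then ((d ⟨i, h⟩).1 : ℕ) else 0

/-- the right threshold of the pocket `i` -/
def bv (i : ℕ) : ℕ := if h : i < m then ((d ⟨i, h⟩).2 : ℕ) else 0

lemma av_lt {i : ℕ} (h : i < m) : av d i + 1 ≤ B := by
  unfold av
  rw [dif_pos h]
  exact (d ⟨i, h⟩).1.2

lemma bv_lt {i : ℕ} (h : i < m) : bv d i + 1 ≤ B := by
  unfold bv
  rw [dif_pos h]
  exact (d ⟨i, h⟩).2.2

/-- the reciprocal depth of the left corner of a pocket -/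
noncomputable def DL (i : ℕ) : ℝ := 4 * m + 4 * B + 4 * i + 2 - 2 * av d i

/-- the reciprocal depth of the right corner of a pocket -/
noncomputable def DR (i : ℕ) : ℝ := 8 * m + 2 * B + 2 * bv d i - 4 * i

lemma DL_ge {i : ℕ} (h : i < m) : (4 * m + 2 * B + 4 : ℝ) ≤ DL d i := by
  have h1 : ((av d i : ℕ) : ℝ) + 1 ≤ B := by exact_mod_cast av_lt d h
  have h2 : (0 : ℝ) ≤ i := Nat.cast_nonneg i
  unfold DL
  linarith

lemma DR_ge {i : ℕ} (h : i < m) : (4 * m + 2 * B + 4 : ℝ) ≤ DR d i := by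
  have h1 : (i : ℝ) + 1 ≤ m := by exact_mod_cast h
  have h2 : (0 : ℝ) ≤ bv d i := Nat.cast_nonneg _
  unfold DR
  linarith

/-- the reciprocal depth of a corner -/
noncomputable def cd (x : ℕ) : ℝ :=
  if (x - (4 * m + 4 * B)) % 4 = 0 then DL d ((x - (4 * m + 4 * B)) / 4)
  else DR d ((x - (4 * m + 4 * B)) / 4)

/-- heights of the upper chain -/
noncomputable def ph (x : ℕ) : ℝ :=
  if x % 2 = 1 then
    (if 4 * m + 4 * B ≤ x ∧ x < 8 * m + 4 * B ∧ (x - (4 * m + 4 * B)) % 4 = 1 then 0 else 2)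
  else (if 4 * m + 4 * B ≤ x ∧ x < 8 * m + 4 * B then -(1 / cd d x) else 1)

/-- heights of the lower chain -/
noncomputable def lg (x : ℕ) : ℝ := if x % 2 = 1 then -2 else -1

lemma cd_ge {x : ℕ} (h1 : 4 * m + 4 * B ≤ x) (h2 : x < 8 * m + 4 * B) :
    (4 * m + 2 * B + 4 : ℝ) ≤ cd d x := by
  unfold cd
  split_ifs
  · exact DL_ge d (by omega)
  · exact DR_ge d (by omega)

lemma base_pos : (0 : ℝ) < 4 * m + 2 * B + 4 := by positivity

lemma inv_cd {x : ℕ} (h1 : 4 * m + 4 * B ≤ x) (h2 : x < 8 * m + 4 * B) :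
    0 < 1 / cd d x ∧ 1 / cd d x ≤ 1 / (4 * m + 2 * B + 4 : ℝ) := by
  have h3 := cd_ge d h1 h2
  have h4 : (0 : ℝ) < 4 * m + 2 * B + 4 := base_pos
  exact ⟨one_div_pos.2 (lt_of_lt_of_le h4 h3), one_div_le_one_div_of_le h4 h3⟩

lemma ph_ge (x : ℕ) : -(1 / (4 * m + 2 * B + 4 : ℝ)) ≤ ph d x := by
  have h4 : (0 : ℝ) < 1 / (4 * m + 2 * B + 4) := one_div_pos.2 base_pos
  unfold ph
  split_ifs with h1 h2 h3
  · linarith
  · linarith
  · have := (inv_cd d h3.1 h3.2).2
    linarith
  · linarith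

lemma ph_gt (x : ℕ) : -1 < ph d x := by
  refine lt_of_lt_of_le ?_ (ph_ge d x)
  have h4 : (1 : ℝ) / (4 * m + 2 * B + 4) ≤ 1 / 4 := by
    apply one_div_le_one_div_of_le (by norm_num)
    have h5 : (0 : ℝ) ≤ m := Nat.cast_nonneg m
    have h6 : (0 : ℝ) ≤ B := Nat.cast_nonneg B
    linarith
  linarith

lemma lg_le (x : ℕ) : lg x ≤ -1 := by
  unfold lg
  split_ifs <;> norm_num

lemma ph_second (k : ℕ) : ph d (k + 2) - 2 * ph d (k + 1) + ph d k ≠ 0 := by
  by_cases hk : k % 2 = 1
  · -- the middle position is even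
    have e0 : (0 : ℝ) ≤ ph d k := by
      unfold ph; rw [if_pos hk]; split_ifs <;> norm_num
    have e2 : (0 : ℝ) ≤ ph d (k + 2) := by
      unfold ph; rw [if_pos (by omega)]; split_ifs <;> norm_num
    by_cases hr : 4 * m + 4 * B ≤ k + 1 ∧ k + 1 < 8 * m + 4 * B
    · have e1 : ph d (k + 1) < 0 := by
        unfold ph; rw [if_neg (by omega), if_pos hr]
        have := (inv_cd d hr.1 hr.2).1
        linarith
      have : 0 < ph d (k + 2) - 2 * ph d (k + 1) + ph d k := by linarith
      exact this.ne'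
    · have e1 : ph d (k + 1) = 1 := by
        unfold ph; rw [if_neg (by omega), if_neg hr]
      have f0 : ph d k = 2 := by
        unfold ph; rw [if_pos hk, if_neg (by omega)]
      have f2 : ph d (k + 2) = 2 := by
        unfold ph; rw [if_pos (by omega), if_neg (by omega)]
      rw [e1, f0, f2]; norm_num
  · have up : ∀ x, x % 2 ≠ 1 → ph d x ≤ 1 := by
      intro x hx
      unfold ph; rw [if_neg hx]
      split_ifs with h
      · have := (inv_cd d h.1 h.2).1
        linarith
      · exact le_rfl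
    by_cases hr : 4 * m + 4 * B ≤ k + 1 ∧ k + 1 < 8 * m + 4 * B ∧
        (k + 1 - (4 * m + 4 * B)) % 4 = 1
    · have e1 : ph d (k + 1) = 0 := by
        unfold ph; rw [if_pos (by omega), if_pos hr]
      have e0 : ph d k < 0 := by
        have hr0 : 4 * m + 4 * B ≤ k ∧ k < 8 * m + 4 * B := by omega
        unfold ph; rw [if_neg hk, if_pos hr0]
        have := (inv_cd d hr0.1 hr0.2).1
        linarith
      have e2 : ph d (k + 2) < 0 := by
        have hr0 : 4 * m + 4 * B ≤ k + 2 ∧ k + 2 < 8 * m + 4 * B := by omega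
        unfold ph; rw [if_neg (by omega), if_pos hr0]
        have := (inv_cd d hr0.1 hr0.2).1
        linarith
      have : ph d (k + 2) - 2 * ph d (k + 1) + ph d k < 0 := by rw [e1]; linarith
      exact this.ne
    · have e1 : ph d (k + 1) = 2 := by
        unfold ph; rw [if_pos (by omega), if_neg hr]
      have e0 := up k hk
      have e2 := up (k + 2) (by omega)
      have : ph d (k + 2) - 2 * ph d (k + 1) + ph d k < 0 := by rw [e1]; linarith
      exact this.ne

lemma lg_second (k : ℕ) : lg (k + 2) - 2 * lg (k + 1) + lg k ≠ 0 := by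
  by_cases hk : k % 2 = 1
  · unfold lg
    rw [if_pos (by omega), if_neg (by omega), if_pos hk]; norm_num
  · unfold lg
    rw [if_neg (by omega), if_pos (by omega), if_neg hk]; norm_num

/-- heights of the upper chain, with the tip at the right end for odd `n` -/
noncomputable def uH (n L x : ℕ) : ℝ := if n = 2 * L + 1 ∧ x = L then 1 / 2 else ph d x

/-- heights of the lower chain, with the tip at the right end for odd `n` -/
noncomputable def lG (n L x : ℕ) : ℝ := if n = 2 * L + 1 ∧ x = L then 1 / 2 else lg x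

lemma uH_of_lt (n L x : ℕ) (h : x < L) : uH d n L x = ph d x := by
  unfold uH; rw [if_neg]; omega

lemma lG_of_lt (n L x : ℕ) (h : x < L) : lG n L x = lg x := by
  unfold lG; rw [if_neg]; omega

lemma heights (n L : ℕ) (hL : 12 * m + 8 * B + 2 ≤ L) (hn : n = 2 * L + 2 ∨ n = 2 * L + 1) :
    Heights n L (lG n L) (uH d n L) where
  hL := by omega
  lt k hk := by
    rw [uH_of_lt d n L k hk, lG_of_lt n L k hk]
    linarith [ph_gt d k, lg_le k]
  tip := by
    rcases hn with h | h
    · left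
      refine ⟨h, ?_⟩
      unfold lG uH
      rw [if_neg (by omega), if_neg (by omega)]
      linarith [ph_gt d L, lg_le L]
    · right
      refine ⟨h, ?_⟩
      unfold lG uH
      rw [if_pos ⟨h, rfl⟩, if_pos ⟨h, rfl⟩]

lemma noStraight (n L : ℕ) (hL : 12 * m + 8 * B + 2 ≤ L) (hn : n = 2 * L + 2 ∨ n = 2 * L + 1) :
    NoStraight (mv n L (lG n L) (uH d n L)) := by
  apply (heights d n L hL hn).noStraight
  · intro k hk
    rw [lG_of_lt n L (k + 1) (by omega), lG_of_lt n L k (by omega)]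
    by_cases h : n = 2 * L + 1 ∧ k + 2 = L
    · unfold lG
      rw [if_pos h]
      by_cases hk : k % 2 = 1
      · unfold lg
        rw [if_neg (by omega), if_pos hk]; norm_num
      · unfold lg
        rw [if_pos (by omega), if_neg hk]; norm_num
    · have : lG n L (k + 2) = lg (k + 2) := by unfold lG; rw [if_neg h]
      rw [this]
      exact lg_second k
  · intro k hk
    rw [uH_of_lt d n L (k + 1) (by omega), uH_of_lt d n L k (by omega)]
    by_cases h : n = 2 * L + 1 ∧ k + 2 = L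
    · unfold uH
      rw [if_pos h]
      by_cases hk : k % 2 = 1
      · unfold ph
        rw [if_neg (by omega), if_neg (by omega), if_pos hk, if_neg (by omega)]; norm_num
      · unfold ph
        rw [if_pos (by omega), if_neg (by omega), if_neg hk, if_neg (by omega)]; norm_num
    · have : uH d n L (k + 2) = ph d (k + 2) := by unfold uH; rw [if_neg h]
      rw [this]
      exact ph_second d k

end

/-- the polygon -/
noncomputable def vv {m B : ℕ} (n L : ℕ) (d : Fin m → Fin B × Fin B) : Fin n → ℝ × ℝ :=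
  mv n L (lG n L) (uH d n L)

/-- the region bounded by the polygon -/
noncomputable def PP {m B : ℕ} (n L : ℕ) (d : Fin m → Fin B × Fin B) : Set (ℝ × ℝ) :=
  region L (pl (lG n L) L) (pl (uH d n L) L)

/-- the vertex of the lower chain with first coordinate `x` -/
def lo (n : ℕ) (hn : 0 < n) (x : ℕ) : Fin n := ⟨min x (n - 1), by omega⟩

/-- the vertex of the upper chain with first coordinate `x` -/
def hi (n : ℕ) (hn : 0 < n) (x : ℕ) : Fin n := ⟨n - 1 - x, by omega⟩

section

variable {m B : ℕ} (d : Fin m → Fin B × Fin B) {n L : ℕ} (hL : 12 * m + 8 * B + 2 ≤ L)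
  (hn : n = 2 * L + 2 ∨ n = 2 * L + 1) (hn0 : 0 < n)

include hn in
lemma vv_lo (x : ℕ) (hx : x < L) (he : x % 2 = 0) : vv n L d (lo n hn0 x) = ((x : ℝ), -1) := by
  unfold vv mv lo
  have h1 : min x (n - 1) = x := by omega
  simp only [h1]
  rw [if_pos hx.le, lG_of_lt n L x hx]
  unfold lg
  rw [if_neg (by omega)]

include hL hn in
lemma vv_hi (i : ℕ) (hi' : i < m) :
    vv n L d (hi n hn0 (4 * m + 4 * B + 4 * i + 1)) = (((4 * m + 4 * B + 4 * i + 1 : ℕ) : ℝ), 0) := by
  unfold vv mv hi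
  simp only
  rw [if_neg (by omega)]
  have h2 : n - 1 - (n - 1 - (4 * m + 4 * B + 4 * i + 1)) = 4 * m + 4 * B + 4 * i + 1 := by omega
  rw [h2, uH_of_lt _ _ _ _ (by omega)]
  unfold ph
  rw [if_pos (by omega), if_pos (by omega)]

lemma ph_apex (i : ℕ) (hi' : i < m) : ph d (4 * m + 4 * B + 4 * i + 1) = 0 := by
  unfold ph
  rw [if_pos (by omega), if_pos (by omega)]

lemma ph_right (i : ℕ) (hi' : i < m) :
    ph d (4 * m + 4 * B + 4 * i + 1 + 1) = -(1 / DR d i) := by
  unfold ph cd
  have h : (4 * m + 4 * B + 4 * i + 1 + 1 - (4 * m + 4 * B)) / 4 = i := by omega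
  rw [if_neg (by omega), if_pos (by omega), if_neg (by omega), h]

lemma ph_left (i : ℕ) (hi' : i < m) :
    ph d (4 * m + 4 * B + 4 * i) = -(1 / DL d i) := by
  unfold ph cd
  have h : (4 * m + 4 * B + 4 * i - (4 * m + 4 * B)) / 4 = i := by omega
  rw [if_neg (by omega), if_pos (by omega), if_pos (by omega), h]

include hL hn in
/-- visibility to the right -/
lemma adj_right (i j : ℕ) (hi' : i < m) (hj : j < B) :
    (visGraph (vv n L d) (PP n L d)).Adj (hi n hn0 (4 * m + 4 * B + 4 * i + 1))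
      (lo n hn0 (12 * m + 6 * B + 2 * j)) ↔ j ≤ bv d i := by
  have hne : hi n hn0 (4 * m + 4 * B + 4 * i + 1) ≠ lo n hn0 (12 * m + 6 * B + 2 * j) := by
    intro h
    have := congrArg Fin.val h
    unfold hi lo at this
    simp only at this
    omega
  have e : (visGraph (vv n L d) (PP n L d)).Adj (hi n hn0 (4 * m + 4 * B + 4 * i + 1))
      (lo n hn0 (12 * m + 6 * B + 2 * j)) ↔
      segment ℝ (vv n L d (hi n hn0 (4 * m + 4 * B + 4 * i + 1)))
        (vv n L d (lo n hn0 (12 * m + 6 * B + 2 * j))) ⊆ PP n L d := by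
    unfold visGraph
    simp only
    exact ⟨fun h => h.2, fun h => ⟨hne, h⟩⟩
  rw [e, vv_hi d hL hn hn0 i hi', vv_lo d hn hn0 _ (by omega) (by omega)]
  unfold PP
  rw [seg_region _ _ (by omega) (by omega)]
  have c1 : (i : ℝ) + 1 ≤ m := by exact_mod_cast hi'
  have c2 : (j : ℝ) + 1 ≤ B := by exact_mod_cast hj
  have c3 : (0 : ℝ) ≤ i := Nat.cast_nonneg i
  have c4 : (0 : ℝ) ≤ j := Nat.cast_nonneg j
  set D : ℝ := ((12 * m + 6 * B + 2 * j : ℕ) : ℝ) - ((4 * m + 4 * B + 4 * i + 1 : ℕ) : ℝ) with hD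
  have hD' : D = 8 * m + 2 * B + 2 * j - 4 * i - 1 := by rw [hD]; push_cast; ring
  have hD0 : 0 < D := by rw [hD']; linarith
  have hD1 : D ≤ 2 * (4 * m + 2 * B + 4) := by rw [hD']; linarith
  have hR := DR_ge d hi'
  have hR0 : (0 : ℝ) < 4 * m + 2 * B + 4 := base_pos
  have hR1 : 0 < DR d i := lt_of_lt_of_le hR0 hR
  constructor
  · intro h
    obtain ⟨-, h1⟩ := h (4 * m + 4 * B + 4 * i + 1 + 1) (by omega) (by omega)
    rw [uH_of_lt _ _ _ _ (by omega), ph_right d i hi'] at h1
    have h2 : ((4 * m + 4 * B + 4 * i + 1 + 1 : ℕ) : ℝ) - ((4 * m + 4 * B + 4 * i + 1 : ℕ) : ℝ)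
        = 1 := by push_cast; ring
    rw [h2] at h1
    have h3 : 1 / DR d i ≤ 1 / D := by linarith
    have h4 : D ≤ DR d i := by
      by_contra h5
      push Not at h5
      have := one_div_lt_one_div_of_lt hR1 h5
      linarith
    rw [hD'] at h4
    unfold DR at h4
    have h5 : (2 * (j : ℝ)) ≤ 2 * (bv d i : ℝ) + 1 := by linarith
    have h6 : 2 * j ≤ 2 * bv d i + 1 := by exact_mod_cast h5
    omega
  · intro h k hk1 hk2
    have hjb : (j : ℝ) ≤ bv d i := by exact_mod_cast h
    rw [uH_of_lt _ _ _ _ (by omega), lG_of_lt _ _ _ (by omega)]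
    have k1 : ((4 * m + 4 * B + 4 * i + 1 : ℕ) : ℝ) ≤ k := by exact_mod_cast hk1
    have k2 : (k : ℝ) ≤ ((12 * m + 6 * B + 2 * j : ℕ) : ℝ) := by exact_mod_cast hk2
    set t : ℝ := (k : ℝ) - ((4 * m + 4 * B + 4 * i + 1 : ℕ) : ℝ) with ht
    have ht0 : 0 ≤ t := by linarith
    have ht1 : t ≤ D := by rw [ht, hD]; linarith
    have e1 : (0 : ℝ) + t / D * (-1 - 0) = -(t / D) := by ring
    rw [e1]
    have h7 : t / D ≤ 1 := (div_le_one hD0).2 ht1
    have h8 : 0 ≤ t / D := div_nonneg ht0 hD0.le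
    refine ⟨by linarith [lg_le k], ?_⟩
    rcases Nat.lt_or_ge k (4 * m + 4 * B + 4 * i + 1 + 1) with h9 | h9
    · have : k = 4 * m + 4 * B + 4 * i + 1 := by omega
      rw [this, ph_apex d i hi']
      linarith
    · rcases Nat.lt_or_ge k (4 * m + 4 * B + 4 * i + 1 + 2) with h10 | h10
      · have hk' : k = 4 * m + 4 * B + 4 * i + 1 + 1 := by omega
        have ht' : t = 1 := by rw [ht, hk']; push_cast; ring
        rw [hk', ph_right d i hi', ht']
        have : 1 / DR d i ≤ 1 / D := by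
          apply one_div_le_one_div_of_le hD0
          rw [hD']
          unfold DR
          linarith
        linarith
      · refine le_trans ?_ (ph_ge d k)
        have ht2 : 2 ≤ t := by
          have : ((4 * m + 4 * B + 4 * i + 1 + 2 : ℕ) : ℝ) ≤ k := by exact_mod_cast h10
          push_cast at this
          rw [ht]
          push_cast
          linarith
        have : 1 / (4 * m + 2 * B + 4 : ℝ) ≤ t / D := by
          rw [div_le_div_iff₀ hR0 hD0]
          nlinarith
        linarith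

include hL hn in
/-- visibility to the left -/
lemma adj_left (i j : ℕ) (hi' : i < m) (hj : j < B) :
    (visGraph (vv n L d) (PP n L d)).Adj (hi n hn0 (4 * m + 4 * B + 4 * i + 1))
      (lo n hn0 (2 * j)) ↔ av d i ≤ j := by
  have hne : hi n hn0 (4 * m + 4 * B + 4 * i + 1) ≠ lo n hn0 (2 * j) := by
    intro h
    have := congrArg Fin.val h
    unfold hi lo at this
    simp only at this
    omega
  have e : (visGraph (vv n L d) (PP n L d)).Adj (hi n hn0 (4 * m + 4 * B + 4 * i + 1))
      (lo n hn0 (2 * j)) ↔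
      segment ℝ (vv n L d (lo n hn0 (2 * j))) (vv n L d (hi n hn0 (4 * m + 4 * B + 4 * i + 1))) ⊆
        PP n L d := by
    unfold visGraph
    simp only
    rw [segment_symm]
    exact ⟨fun h => h.2, fun h => ⟨hne, h⟩⟩
  rw [e, vv_hi d hL hn hn0 i hi', vv_lo d hn hn0 _ (by omega) (by omega)]
  unfold PP
  rw [seg_region _ _ (by omega) (by omega)]
  have c1 : (i : ℝ) + 1 ≤ m := by exact_mod_cast hi'
  have c2 : (j : ℝ) + 1 ≤ B := by exact_mod_cast hj
  have c3 : (0 : ℝ) ≤ i := Nat.cast_nonneg i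
  have c4 : (0 : ℝ) ≤ j := Nat.cast_nonneg j
  set D : ℝ := ((4 * m + 4 * B + 4 * i + 1 : ℕ) : ℝ) - ((2 * j : ℕ) : ℝ) with hD
  have hD' : D = 4 * m + 4 * B + 4 * i + 1 - 2 * j := by rw [hD]; push_cast; ring
  have hD0 : 0 < D := by rw [hD']; linarith
  have hD1 : D ≤ 2 * (4 * m + 2 * B + 4) := by rw [hD']; linarith
  have hR := DL_ge d hi'
  have hR0 : (0 : ℝ) < 4 * m + 2 * B + 4 := base_pos
  have hR1 : 0 < DL d i := lt_of_lt_of_le hR0 hR
  constructor
  · intro h
    obtain ⟨-, h1⟩ := h (4 * m + 4 * B + 4 * i) (by omega) (by omega)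
    rw [uH_of_lt _ _ _ _ (by omega), ph_left d i hi'] at h1
    have h2 : (((4 * m + 4 * B + 4 * i : ℕ) : ℝ) - ((2 * j : ℕ) : ℝ)) / D = 1 - 1 / D := by
      rw [eq_sub_iff_add_eq, ← add_div, div_eq_one_iff_eq hD0.ne', hD]
      push_cast
      ring
    rw [h2] at h1
    have h3 : 1 / DL d i ≤ 1 / D := by linarith
    have h4 : D ≤ DL d i := by
      by_contra h5
      push Not at h5
      have := one_div_lt_one_div_of_lt hR1 h5
      linarith
    rw [hD'] at h4
    unfold DL at h4
    have h5 : (2 * (av d i : ℝ)) ≤ 2 * (j : ℝ) + 1 := by linarith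
    have h6 : 2 * av d i ≤ 2 * j + 1 := by exact_mod_cast h5
    omega
  · intro h k hk1 hk2
    have hjb : (av d i : ℝ) ≤ j := by exact_mod_cast h
    rw [uH_of_lt _ _ _ _ (by omega), lG_of_lt _ _ _ (by omega)]
    have k1 : ((2 * j : ℕ) : ℝ) ≤ k := by exact_mod_cast hk1
    have k2 : (k : ℝ) ≤ ((4 * m + 4 * B + 4 * i + 1 : ℕ) : ℝ) := by exact_mod_cast hk2
    set t : ℝ := ((4 * m + 4 * B + 4 * i + 1 : ℕ) : ℝ) - k with ht
    have ht0 : 0 ≤ t := by linarith
    have ht1 : t ≤ D := by rw [ht, hD]; linarith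
    have e1 : (-1 : ℝ) + ((k : ℝ) - ((2 * j : ℕ) : ℝ)) / D * (0 - -1) = -(t / D) := by
      have : (k : ℝ) - ((2 * j : ℕ) : ℝ) = D - t := by rw [ht, hD]; ring
      rw [this, sub_div, div_self hD0.ne']
      ring
    rw [e1]
    have h7 : t / D ≤ 1 := (div_le_one hD0).2 ht1
    have h8 : 0 ≤ t / D := div_nonneg ht0 hD0.le
    refine ⟨by linarith [lg_le k], ?_⟩
    rcases Nat.lt_or_ge (4 * m + 4 * B + 4 * i) k with h9 | h9
    · have : k = 4 * m + 4 * B + 4 * i + 1 := by omega
      rw [this, ph_apex d i hi']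
      linarith
    · rcases Nat.lt_or_ge k (4 * m + 4 * B + 4 * i) with h10 | h10
      · refine le_trans ?_ (ph_ge d k)
        have ht2 : 2 ≤ t := by
          have : (k : ℝ) + 1 ≤ ((4 * m + 4 * B + 4 * i : ℕ) : ℝ) := by exact_mod_cast h10
          push_cast at this
          rw [ht]
          push_cast
          linarith
        have : 1 / (4 * m + 2 * B + 4 : ℝ) ≤ t / D := by
          rw [div_le_div_iff₀ hR0 hD0]
          nlinarith
        linarith
      · have hk' : k = 4 * m + 4 * B + 4 * i := by omega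
        have ht' : t = 1 := by rw [ht, hk']; push_cast; ring
        rw [hk', ph_left d i hi', ht']
        have : 1 / DL d i ≤ 1 / D := by
          apply one_div_le_one_div_of_le hD0
          rw [hD']
          unfold DL
          linarith
        linarith

end

end Pool.Agent.X33.VG
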